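import Mathlib
import Pool.Agent.Q330.FV.Rank
import Pool.Agent.Q330.FV.Word
import Pool.Agent.Q330.FV.Size

/-!
# MP_0036f5_lc: determinizing 1-limited automata which visit each cell few times

For every `n` there is a 1-limited automaton with `3 n + 8` states, `6 n + 6` work symbols and size
at most `700 (n + 1) ^ 2`, whose accepting computations visit each cell at most `2 n + 3` times, such that every equivalent
unambiguous (in particular, every equivalent deterministic) 1-limited automaton whose accepting
computations visit each cell at most `k` times has a number `s` of states with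
`2 ^ (2 ^ n) ≤ (s + 1) ^ (2 k) + 1`.
-/

set_option autoImplicit false

namespace Pool.Agent.Results.MP_0036f5_lc.FewVisits

open Pool.Agent.H630R2.LA Pool.Agent.Q330.FV

/-- All accepting computations of `M` visit each cell at most `k` times. -/
def VisitBound (strict : Prop) {A : Type} (M : LimAut A) (k : ℕ) : Prop :=
  ∀ (w : List A) (cs : List (Cfg M)), AccComp strict w.length (init M w) cs →
    ∀ i, visits cs i ≤ k

/-- **Determinization of 1-limited automata with few visits is doubly exponential.** -/
theorem result :
    (∀ (strict : Prop) (A : Type) (M : LimAut A), M.Deterministic → Unambiguous strict M) ∧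
    ∀ n : ℕ, ∃ M : LimAut ((Fin n × Bool) ⊕ Bool),
      Nat.card M.Q = 3 * n + 8 ∧ Nat.card M.W = 6 * n + 6 ∧ M.size ≤ 700 * (n + 1) ^ 2 ∧
      (∀ strict : Prop, VisitBound strict M (2 * n + 3)) ∧
      ∀ (strict : Prop) (U : LimAut ((Fin n × Bool) ⊕ Bool)) (k : ℕ),
        U.language strict = M.language strict → Unambiguous strict U → VisitBound strict U k →
        2 ^ 2 ^ n ≤ (Nat.card U.Q + 1) ^ (2 * k) + 1 := by
  refine ⟨fun strict A M h => unambiguous_of_deterministic strict h, fun n => ?_⟩
  refine ⟨mach n, card_St n, card_Wk n, size_le n, fun strict w cs h i => ?_,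
    fun strict U k hU hun hk => ?_⟩
  · have h1 := visits_le i h
    omega
  · have h := lower (X := Fin n → Bool) strict U k (2 ^ n * (n + 1)) enc enc length_enc length_enc
      (fun S T => by rw [hU]; exact mem_enc S T) hun hk
    rwa [Fintype.card_fun, Fintype.card_fin, Fintype.card_bool] at h

end Pool.Agent.Results.MP_0036f5_lc.FewVisits
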